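import Pool.Agent.R805.LatAct.Main

/-!
# MP_2392aa_gt, Q1: a lattice action which is not linearizable near an isolated fixed point
-/

open scoped MatrixGroups

namespace Pool.Agent.Results.MP_2392aa_gt.NotLinearizable

open Pool.Agent.Results.MP_2392aa_gt.NoGlobalModel
open Pool.Agent.TH636.Lat (IsLattice)
open Pool.Agent.R805.LatAct

/-- There are a lattice `Γ` in `SL(2,ℝ)`, a contractible smooth surface `M` with a smooth action of
`Γ` and a point `p` which is the only common fixed point of `Γ`, such that the derivative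
representation at `p` is the inclusion of `Γ` in `SL(2,ℝ)` (in particular it is unbounded), but the
action is not linearizable near `p`. -/
theorem result :
    ∃ Γ : Subgroup SL(2, ℝ), IsLattice Γ ∧
      ∃ (M : Type) (_ : TopologicalSpace M) (_ : ChartedSpace (E 2) M) (_ : MulAction Γ M) (p : M),
        SmoothAction 2 Γ M ∧ ContractibleSpace M ∧
        (∀ γ : Γ, γ • p = p) ∧ (∀ x : M, (∀ γ : Γ, γ • x = x) → x = p) ∧
        (∀ γ : Γ, der 2 p γ = lin (γ : SL(2, ℝ))) ∧ (∀ C : ℝ, ∃ γ : Γ, C < ‖der 2 p γ‖) ∧
        ¬ LinearizableNear 2 Γ p ∧ ¬ HasLinearNeighborhood 2 Γ p :=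
  ⟨Gm, isLattice_Gm, Pl, inferInstance, inferInstance, actG, o, smoothAction,
    inferInstanceAs (ContractibleSpace (E 2)), smul_o, fixed_eq, der_smul, unbounded,
    not_linearizable, not_global⟩

end Pool.Agent.Results.MP_2392aa_gt.NotLinearizable
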